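import Pool.Agent.W381.CM.QAc
import Pool.Agent.H95R2.BG.BV
import Pool.Agent.H732R2.MT_B3

set_option autoImplicit false

namespace Pool.Agent.W381.CM

open Pool.Agent.W16.CM

theorem qa (hMER : St_MER) : St_QA :=
  core Pool.Agent.H95R2.BG.bvap' Pool.Agent.H732R2.pntLog hMER

end Pool.Agent.W381.CM
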