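import Pool.Agent.W16.CM.Stm
import Pool.Agent.H410R2.Iface2

set_option autoImplicit false

open Finset Filter Topology

namespace Pool.Agent.W381.CM

open Pool.Agent.W16.CM Pool.Agent.H410R2

lemma three_le_log {T : ℕ} (hT : 27 ≤ T) : 3 ≤ Real.log T := by
  have h1 : Real.exp 3 ≤ T := by
    have h2 : Real.exp 3 = Real.exp 1 ^ 3 := by
      rw [← Real.exp_nat_mul]
      norm_num
    have h3 := Real.exp_one_lt_d9
    have h4 : Real.exp 1 ≤ 3 := by linarith
    have h5 : Real.exp 1 ^ 3 ≤ 3 ^ 3 := pow_le_pow_left₀ (Real.exp_pos 1).le h4 3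
    have h6 : (27 : ℝ) ≤ T := by exact_mod_cast hT
    rw [h2]
    linarith
  rw [Real.le_log_iff_exp_le (by
    have : (27 : ℝ) ≤ T := by exact_mod_cast hT
    linarith)]
  exact h1

theorem core (hBV : BVAP) (hPNT : PNTLog) (hMER : St_MER) : St_QA := by
  obtain ⟨T1, hT1⟩ := hMER
  obtain ⟨X0, hX0⟩ := hBV 1 le_rfl 1 le_rfl (1 / 10) (by norm_num) 2
  have hP : ∀ᶠ X : ℝ in atTop, 1 / 2 < psiLog1 X / X :=
    hPNT.eventually (lt_mem_nhds (by norm_num : (1 / 2 : ℝ) < 1))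
  obtain ⟨X1, hX1⟩ := eventually_atTop.1 hP
  refine ⟨max (max T1 27) (max ⌈X0⌉₊ ⌈X1⌉₊), fun T hT => ?_⟩
  have hT1' : T1 ≤ T := ((le_max_left _ _).trans (le_max_left _ _)).trans hT
  have hT27 : 27 ≤ T := ((le_max_right _ _).trans (le_max_left _ _)).trans hT
  have hTX0 : X0 ≤ T := (Nat.le_ceil X0).trans (by
    exact_mod_cast ((le_max_left _ _).trans (le_max_right _ _)).trans hT)
  have hTX1 : X1 ≤ T := (Nat.le_ceil X1).trans (by
    exact_mod_cast ((le_max_right _ _).trans (le_max_right _ _)).trans hT)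
  have hTr : (27 : ℝ) ≤ T := by exact_mod_cast hT27
  have hTpos : (0 : ℝ) < T := by linarith
  have hTpow : (T : ℝ) ≤ (T : ℝ) ^ 100 := le_self_pow₀ (by linarith) (by norm_num)
  set X : ℝ := (T : ℝ) ^ 100 with hX
  have hXpos : 0 < X := by positivity
  have hbv := hX0 X (hTX0.trans hTpow) (fun _ => 1)
  have hpsi : X / 2 ≤ psiLog1 X := by
    have h1 := hX1 X (hTX1.trans hTpow)
    rw [lt_div_iff₀ hXpos] at h1
    linarith
  have hlog : Real.log X = 100 * Real.log T := by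
    rw [hX, Real.log_pow]
    norm_num
  have hL := three_le_log hT27
  set l := Real.log T with hl
  set S := (Ioc (T ^ 10) (T ^ 39)).filter Nat.Prime with hS
  -- the primes in the sum
  have hsub : S ⊆ (Icc 1 ⌊X ^ ((1 : ℝ) / 2 - 1 / 10)⌋₊).filter
      (fun q => Squarefree q ∧ (1 : ℕ).Coprime (1 * q)) := by
    intro q hq
    rw [hS, mem_filter, mem_Ioc] at hq
    obtain ⟨⟨-, hq2⟩, hq3⟩ := hq
    rw [mem_filter, mem_Icc]
    refine ⟨⟨hq3.one_lt.le, ?_⟩, hq3.squarefree, Nat.coprime_one_left _⟩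
    apply Nat.le_floor
    have e : X ^ ((1 : ℝ) / 2 - 1 / 10) = (T : ℝ) ^ (40 : ℕ) := by
      rw [hX, ← Real.rpow_natCast (T : ℝ) 100, ← Real.rpow_mul hTpos.le,
        ← Real.rpow_natCast (T : ℝ) 40]
      congr 1
      norm_num
    rw [e]
    have h1 : q ≤ T ^ 40 := hq2.trans (Nat.pow_le_pow_right (by omega) (by norm_num))
    exact_mod_cast h1
  have hsum : ∑ q ∈ S, |psiLogAP X (1 * q) 1 - psiLog1 X / (Nat.totient (1 * q) : ℝ)| ≤
      X / (Real.log X) ^ 2 := by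
    refine le_trans ?_ hbv
    refine le_trans (le_of_eq ?_) (sum_le_sum_of_subset_of_nonneg hsub fun q _ _ => ?_)
    · refine sum_congr rfl fun q _ => ?_
      simp only [one_pow, one_mul]
    · positivity
  have hlow : ∀ q ∈ S, X / 2 * (1 / (q : ℝ)) -
      |psiLogAP X (1 * q) 1 - psiLog1 X / (Nat.totient (1 * q) : ℝ)| ≤ psiLogAP X q 1 := by
    intro q hq
    rw [hS, mem_filter, mem_Ioc] at hq
    obtain ⟨-, hq3⟩ := hq
    rw [one_mul]
    have h1 := neg_abs_le (psiLogAP X q 1 - psiLog1 X / (Nat.totient q : ℝ))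
    have hphi : (0 : ℝ) < Nat.totient q := by exact_mod_cast Nat.totient_pos.2 hq3.pos
    have hq0 : (0 : ℝ) < q := by exact_mod_cast hq3.pos
    have h2 : (Nat.totient q : ℝ) ≤ q := by exact_mod_cast Nat.totient_le q
    have h3 : X / 2 * (1 / (q : ℝ)) ≤ psiLog1 X / (Nat.totient q : ℝ) := by
      rw [mul_one_div]
      exact div_le_div₀ (by linarith) hpsi hphi h2
    linarith
  have htot : X / 2 * (1 / l) - X / (Real.log X) ^ 2 ≤ ∑ q ∈ S, psiLogAP X q 1 := by
    have h1 := sum_le_sum hlow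
    rw [sum_sub_distrib, ← mul_sum] at h1
    have h2 := hT1 T hT1'
    have h3 : X / 2 * (1 / l) ≤ X / 2 * ∑ q ∈ S, 1 / (q : ℝ) :=
      mul_le_mul_of_nonneg_left h2 (by linarith)
    linarith
  have hfin : X / l ^ 2 ≤ X / 2 * (1 / l) - X / (Real.log X) ^ 2 := by
    rw [hlog]
    have hl0 : 0 < l := by linarith
    have e : X / 2 * (1 / l) - X / (100 * l) ^ 2 = X / l ^ 2 * (l / 2 - 1 / 10000) := by
      field_simp
      ring
    rw [e]
    have h1 : 0 ≤ X / l ^ 2 := by positivity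
    nlinarith
  refine (hfin.trans htot).trans (le_of_eq ?_)
  refine sum_congr rfl fun q _ => ?_
  unfold psiLogAP
  have hfl : ⌊X⌋₊ = T ^ 100 := by
    rw [hX]
    have : ((T : ℝ) ^ 100) = ((T ^ 100 : ℕ) : ℝ) := by push_cast; rfl
    rw [this, Nat.floor_natCast]
  rw [hfl]

end Pool.Agent.W381.CM
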